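import Mathlib

set_option autoImplicit false

namespace Pool.Agent.Helper242.Arcs

abbrev E : Type := EuclideanSpace ℝ (Fin 2)

/-- rotation of a vector -/
noncomputable def rot (θ : ℝ) (v : E) : E :=
  !₂[Real.cos θ * v 0 - Real.sin θ * v 1, Real.sin θ * v 0 + Real.cos θ * v 1]

theorem norm_rot (θ : ℝ) (v : E) : ‖rot θ v‖ = ‖v‖ := by
  rw [EuclideanSpace.norm_eq, EuclideanSpace.norm_eq]
  congr 1
  simp only [Fin.sum_univ_two, rot, Real.norm_eq_abs, sq_abs]
  simp
  have := Real.sin_sq_add_cos_sq θ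
  linear_combination ((v 0) ^ 2 + (v 1) ^ 2) * this

theorem rot_zero (v : E) : rot 0 v = v := by
  ext i
  fin_cases i <;> simp [rot]

theorem continuous_rot (v : E) : Continuous (fun θ => rot θ v) := by
  unfold rot
  fun_prop

theorem rot_inj {v : E} (hv : v ≠ 0) {θ θ' : ℝ} (h : rot θ v = rot θ' v) :
    Real.cos θ = Real.cos θ' ∧ Real.sin θ = Real.sin θ' := by
  have h0 : Real.cos θ * v 0 - Real.sin θ * v 1 = Real.cos θ' * v 0 - Real.sin θ' * v 1 := by
    have := congrArg (fun w : E => w 0) h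
    simpa [rot] using this
  have h1 : Real.sin θ * v 0 + Real.cos θ * v 1 = Real.sin θ' * v 0 + Real.cos θ' * v 1 := by
    have := congrArg (fun w : E => w 1) h
    simpa [rot] using this
  have hpos : 0 < (v 0) ^ 2 + (v 1) ^ 2 := by
    by_contra hcon
    apply hv
    have e0 : v 0 = 0 := by nlinarith [sq_nonneg (v 0), sq_nonneg (v 1)]
    have e1 : v 1 = 0 := by nlinarith [sq_nonneg (v 0), sq_nonneg (v 1)]
    ext i
    fin_cases i
    · simpa using e0
    · simpa using e1
  constructor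
  · have : (Real.cos θ - Real.cos θ') * ((v 0) ^ 2 + (v 1) ^ 2) = 0 := by
      linear_combination (v 0) * h0 + (v 1) * h1
    rcases mul_eq_zero.1 this with h | h
    · linarith
    · exact absurd h hpos.ne'
  · have : (Real.sin θ - Real.sin θ') * ((v 0) ^ 2 + (v 1) ^ 2) = 0 := by
      linear_combination (v 0) * h1 - (v 1) * h0
    rcases mul_eq_zero.1 this with h | h
    · linarith
    · exact absurd h hpos.ne'

/-- a short arc of the circle about `c` through `p`, starting at `p` -/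
theorem exists_arc (c p : E) (hcp : p ≠ c) (δ : ℝ) (hδ : 0 < δ) :
    ∃ q : E, q ≠ p ∧ ∃ γ : Path p q, Function.Injective γ ∧
      ∀ t, γ t ∈ Metric.sphere c (dist p c) ∧ dist (γ t) p < δ := by
  have hv : p - c ≠ 0 := sub_ne_zero.2 hcp
  set F : ℝ → E := fun θ => c + rot θ (p - c) with hF
  have hFc : Continuous F := by
    exact continuous_const.add (continuous_rot (p - c))
  have hF0 : F 0 = p := by simp [hF, rot_zero]
  have hev : ∀ᶠ θ in nhds (0:ℝ), dist (F θ) p < δ := by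
    have : ∀ᶠ θ in nhds (0:ℝ), dist (F θ) (F 0) < δ :=
      hFc.continuousAt (Metric.ball_mem_nhds _ hδ)
    simpa [hF0] using this
  obtain ⟨ε, hε, hε2⟩ := Metric.eventually_nhds_iff.1 hev
  set η : ℝ := min (ε / 2) 1 with hη
  have hη0 : 0 < η := by positivity
  have hη1 : η ≤ 1 := min_le_right _ _
  have hηε : η < ε := lt_of_le_of_lt (min_le_left _ _) (by linarith)
  have hcirc : ∀ θ, F θ ∈ Metric.sphere c (dist p c) := by
    intro θ
    rw [Metric.mem_sphere, dist_eq_norm, dist_eq_norm]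
    simp [hF, norm_rot]
  have hinj : ∀ θ ∈ Set.Icc (0:ℝ) 1, ∀ θ' ∈ Set.Icc (0:ℝ) 1, F θ = F θ' → θ = θ' := by
    intro θ hθ θ' hθ' h
    have h1 : rot θ (p - c) = rot θ' (p - c) := by
      simpa [hF] using h
    have h2 := rot_inj hv h1
    have hpi : (1:ℝ) ≤ Real.pi := by linarith [Real.pi_gt_three]
    exact Real.injOn_cos ⟨hθ.1, hθ.2.trans hpi⟩ ⟨hθ'.1, hθ'.2.trans hpi⟩ h2.1
  refine ⟨F η, ?_, ⟨⟨fun t => F (η * t), ?_⟩, ?_, ?_⟩, ?_, ?_⟩
  · intro h
    rw [← hF0] at h
    have := hinj η ⟨hη0.le, hη1⟩ 0 ⟨le_rfl, zero_le_one⟩ h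
    linarith
  · exact hFc.comp (continuous_const.mul continuous_subtype_val)
  · simp [hF0]
  · simp
  · intro s t h
    have h' : F (η * s) = F (η * t) := h
    have hs := s.2
    have ht := t.2
    have := hinj (η * s) ⟨by have := hs.1; positivity, by nlinarith [hs.1, hs.2]⟩ (η * t)
      ⟨by have := ht.1; positivity, by nlinarith [ht.1, ht.2]⟩ h'
    have h3 : (s:ℝ) = t := mul_left_cancel₀ hη0.ne' this
    exact Subtype.ext h3
  · intro t
    refine ⟨hcirc _, hε2 ?_⟩
    have ht := t.2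
    rw [Real.dist_eq, sub_zero]
    have h1 : (0:ℝ) ≤ η * t := mul_nonneg hη0.le ht.1
    rw [abs_of_nonneg h1]
    nlinarith [ht.1, ht.2]

theorem finite_inter {c c' : E} {r r' : ℝ} (h : (c, r) ≠ (c', r')) (_hr : 0 < r) (_hr' : 0 < r') :
    (Metric.sphere c r ∩ Metric.sphere c' r').Finite := by
  by_cases hcc : c = c'
  · subst hcc
    have : Metric.sphere c r ∩ Metric.sphere c r' = ∅ := by
      ext x
      simp only [Set.mem_inter_iff, Metric.mem_sphere, Set.mem_empty_iff_false, iff_false, not_and]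
      intro h1 h2
      apply h
      rw [← h1, ← h2]
    rw [this]
    exact Set.finite_empty
  · by_cases hsub : (Metric.sphere c r ∩ Metric.sphere c' r').Subsingleton
    · exact hsub.finite
    · rw [Set.not_subsingleton_iff] at hsub
      obtain ⟨a, ha, b, hb, hab⟩ := hsub
      apply Set.Finite.subset (Set.toFinite {a, b})
      intro x hx
      have hd : Module.finrank ℝ E = 2 := by simp [E]
      have := EuclideanGeometry.eq_of_dist_eq_of_dist_eq_of_finrank_eq_two (V := E) (P := E) hd hcc hab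
        (r₁ := r) (r₂ := r') ha.1 hb.1 hx.1 ha.2 hb.2 hx.2
      simpa using this

theorem exists_sep (F : Set E) (hF : F.Finite) :
    ∃ δ : ℝ, 0 < δ ∧ ∀ x ∈ F, ∀ y ∈ F, x ≠ y → δ ≤ dist x y := by
  classical
  set D : Set ℝ := (fun z : E × E => dist z.1 z.2) '' {z | z ∈ F ×ˢ F ∧ z.1 ≠ z.2} with hD
  have hDf : D.Finite := by
    apply Set.Finite.image
    exact (hF.prod hF).subset (fun z hz => hz.1)
  by_cases hne : D.Nonempty
  · obtain ⟨d, hd, hmin⟩ := hDf.isCompact.exists_isLeast hne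
    refine ⟨d, ?_, ?_⟩
    · obtain ⟨z, hz, rfl⟩ := hd
      exact dist_pos.2 hz.2
    · intro x hx y hy hxy
      exact hmin ⟨(x, y), ⟨⟨hx, hy⟩, hxy⟩, rfl⟩
  · refine ⟨1, one_pos, ?_⟩
    intro x hx y hy hxy
    exact absurd ⟨dist x y, ⟨(x, y), ⟨⟨hx, hy⟩, hxy⟩, rfl⟩⟩ hne

end Pool.Agent.Helper242.Arcs
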