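import Mathlib
import Pool.Agent.Helper242.Arcs

set_option autoImplicit false

namespace Pool.Agent.Helper242.Stars

open Pool.Agent.Helper242.Arcs

/-- disjoint union of stars with centres `A` and leaves `B` each -/
def starG (A B : Type) : SimpleGraph (A × Option B) where
  Adj x y := x.1 = y.1 ∧ x.2.isNone ≠ y.2.isNone
  symm := ⟨fun _ _ h => ⟨h.1.symm, h.2.symm⟩⟩
  loopless := ⟨fun _ h => h.2 rfl⟩

theorem starG_adj {A B : Type} {u v : A × Option B} (h : (starG A B).Adj u v) :
    ∃ a b, s(u, v) = s((a, none), (a, some b)) := by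
  obtain ⟨u1, u2⟩ := u
  obtain ⟨v1, v2⟩ := v
  obtain ⟨h1, h2⟩ := h
  simp only at h1 h2
  subst h1
  cases u2 with
  | none =>
    cases v2 with
    | none => simp at h2
    | some b => exact ⟨u1, b, rfl⟩
  | some b =>
    cases v2 with
    | none => exact ⟨u1, b, Sym2.eq_swap⟩
    | some c => simp at h2

theorem star_drawing (A B : Type) [Finite A] [Finite B] (pt : A → E) (ct : B → E)
    (hpt : Function.Injective pt) (hct : Function.Injective ct) (hne : ∀ a b, pt a ≠ ct b)
    {k : ℕ} (C : Fin k → Set E)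
    (hC : ∀ a b, ∃ i, C i = Metric.sphere (ct b) (dist (pt a) (ct b))) (hB : Nonempty B) :
    ∃ p : A × Option B → E, Function.Injective p ∧
        (∀ v, ∃ i, p v ∈ C i) ∧
        ∃ γ : ∀ u v : A × Option B, Path (p u) (p v),
          (∀ u v, (starG A B).Adj u v →
            Function.Injective ⇑(γ u v) ∧ ∃ i, Set.range ⇑(γ u v) ⊆ C i) ∧
          (∀ u v w, (starG A B).Adj u v → w ≠ u → w ≠ v → p w ∉ Set.range ⇑(γ u v)) ∧
          (∀ u v x y, (starG A B).Adj u v → (starG A B).Adj x y → s(u, v) ≠ s(x, y) →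
            Set.range ⇑(γ u v) ∩ Set.range ⇑(γ x y) ⊆
              p '' (({u, v} : Set (A × Option B)) ∩ ({x, y} : Set (A × Option B)))) := by
  classical
  set K : A → B → Set E := fun a b => Metric.sphere (ct b) (dist (pt a) (ct b)) with hK
  set F : Set E := Set.range pt ∪ ⋃ (a : A) (b : B) (b' : B) (_ : b ≠ b'), (K a b ∩ K a b') with hF
  have hFfin : F.Finite := by
    apply Set.Finite.union (Set.finite_range pt)
    apply Set.finite_iUnion; intro a
    apply Set.finite_iUnion; intro b
    apply Set.finite_iUnion; intro b'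
    apply Set.finite_iUnion; intro hbb
    apply finite_inter
    · intro h
      exact hbb (hct (Prod.ext_iff.1 h).1)
    · exact dist_pos.2 (hne a b)
    · exact dist_pos.2 (hne a b')
  obtain ⟨δ, hδ, hsep⟩ := exists_sep F hFfin
  have harc : ∀ a b, ∃ q : E, q ≠ pt a ∧ ∃ γ : Path (pt a) q, Function.Injective γ ∧
      ∀ t, γ t ∈ Metric.sphere (ct b) (dist (pt a) (ct b)) ∧ dist (γ t) (pt a) < δ / 2 :=
    fun a b => exists_arc (ct b) (pt a) (hne a b) (δ / 2) (by linarith)
  choose q hq γ0 hγinj hγ using harc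
  set R : A → B → Set E := fun a b => Set.range (γ0 a b) with hR
  have hptF : ∀ a, pt a ∈ F := fun a => Or.inl ⟨a, rfl⟩
  have f1 : ∀ a b x, x ∈ R a b → x ∈ K a b ∧ dist x (pt a) < δ / 2 := by
    rintro a b x ⟨t, rfl⟩
    exact hγ a b t
  have f2 : ∀ a b a' b' x, x ∈ R a b → x ∈ R a' b' → a = a' := by
    intro a b a' b' x hx hx'
    by_contra hcon
    have h1 := (f1 a b x hx).2
    have h2 := (f1 a' b' x hx').2
    have h3 := hsep (pt a) (hptF a) (pt a') (hptF a') (fun h => hcon (hpt h))
    have h4 := dist_triangle_left (pt a) (pt a') x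
    linarith
  have f3 : ∀ a b b' x, b ≠ b' → x ∈ R a b → x ∈ R a b' → x = pt a := by
    intro a b b' x hbb hx hx'
    by_contra hcon
    have h1 := f1 a b x hx
    have h2 := f1 a b' x hx'
    have hxF : x ∈ F := by
      right
      simp only [Set.mem_iUnion]
      exact ⟨a, b, b', hbb, h1.1, h2.1⟩
    have h3 := hsep x hxF (pt a) (hptF a) hcon
    linarith [h1.2]
  have f4 : ∀ a b a', pt a' ∈ R a b → a' = a := by
    intro a b a' h
    by_contra hcon
    have h1 := (f1 a b _ h).2
    have h3 := hsep (pt a') (hptF a') (pt a) (hptF a) (fun h => hcon (hpt h))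
    linarith
  have f5 : ∀ a b, q a b ∈ R a b := fun a b => ⟨1, (γ0 a b).target⟩
  have f5' : ∀ a b, pt a ∈ R a b := fun a b => ⟨0, (γ0 a b).source⟩
  have f6 : ∀ a b a' b', q a b ∈ R a' b' → a = a' ∧ b = b' := by
    intro a b a' b' h
    have h1 := f2 a b a' b' _ (f5 a b) h
    subst h1
    refine ⟨rfl, ?_⟩
    by_contra hcon
    exact hq a b (f3 a b b' _ hcon (f5 a b) h)
  -- the vertex map
  set p : A × Option B → E := fun v => match v.2 with
    | none => pt v.1
    | some b => q v.1 b with hp
  have hp0 : ∀ a, p (a, none) = pt a := fun a => rfl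
  have hp1 : ∀ a b, p (a, some b) = q a b := fun a b => rfl
  have hpinj : Function.Injective p := by
    rintro ⟨a, o⟩ ⟨a', o'⟩ h
    cases o with
    | none =>
      cases o' with
      | none => rw [hp0, hp0] at h; rw [hpt h]
      | some b' =>
        rw [hp0, hp1] at h
        have h1 : pt a ∈ R a' b' := h ▸ f5 a' b'
        have h2 := f4 a' b' a h1
        subst h2
        exact absurd h.symm (hq a b')
    | some b =>
      cases o' with
      | none =>
        rw [hp0, hp1] at h
        have h1 : pt a' ∈ R a b := h ▸ f5 a b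
        have h2 := f4 a b a' h1
        subst h2
        exact absurd h (hq a' b)
      | some b' =>
        rw [hp1, hp1] at h
        have h1 : q a b ∈ R a' b' := h ▸ f5 a' b'
        obtain ⟨rfl, rfl⟩ := f6 a b a' b' h1
        rfl
  have hpath : ∀ u v : A × Option B, ∃ g : Path (p u) (p v), ∀ a b,
      s(u, v) = s((a, none), (a, some b)) → Function.Injective g ∧ Set.range g = R a b := by
    intro u v
    by_cases hex : ∃ a b, s(u, v) = s((a, none), (a, some b))
    · obtain ⟨a, b, hab⟩ := hex
      have huniq : ∀ a' b', s(u, v) = s((a', none), (a', some b')) → a' = a ∧ b' = b := by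
        intro a' b' h
        rw [hab] at h
        rw [Sym2.eq_iff] at h
        rcases h with ⟨h1, h2⟩ | ⟨h1, h2⟩
        · simp only [Prod.mk.injEq, Option.some.injEq, and_true] at h1 h2
          exact ⟨h1.symm, h2.2.symm⟩
        · simp at h1
      rw [Sym2.eq_iff] at hab
      rcases hab with ⟨h1, h2⟩ | ⟨h1, h2⟩
      · subst h1; subst h2
        refine ⟨γ0 a b, ?_⟩
        intro a' b' h
        obtain ⟨rfl, rfl⟩ := huniq a' b' h
        exact ⟨hγinj _ _, rfl⟩
      · subst h1; subst h2
        refine ⟨(γ0 a b).symm, ?_⟩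
        intro a' b' h
        obtain ⟨rfl, rfl⟩ := huniq a' b' h
        refine ⟨?_, Path.symm_range _⟩
        intro s t hst
        have := hγinj _ _ hst
        exact unitInterval.symm_bijective.injective this
    · have : JoinedIn (Set.univ : Set E) (p u) (p v) :=
        (convex_univ.isPathConnected ⟨p u, trivial⟩).joinedIn _ trivial _ trivial
      refine ⟨this.somePath, ?_⟩
      intro a b h
      exact absurd ⟨a, b, h⟩ hex
  choose γ hγR using hpath
  refine ⟨p, hpinj, ?_, γ, ?_, ?_, ?_⟩
  · rintro ⟨a, o⟩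
    cases o with
    | none =>
      obtain ⟨b⟩ := hB
      obtain ⟨i, hi⟩ := hC a b
      refine ⟨i, ?_⟩
      rw [hi, hp0]
      exact (f1 a b _ (f5' a b)).1
    | some b =>
      obtain ⟨i, hi⟩ := hC a b
      refine ⟨i, ?_⟩
      rw [hi, hp1]
      exact (f1 a b _ (f5 a b)).1
  · intro u v huv
    obtain ⟨a, b, hab⟩ := starG_adj huv
    obtain ⟨h1, h2⟩ := hγR u v a b hab
    refine ⟨h1, ?_⟩
    obtain ⟨i, hi⟩ := hC a b
    refine ⟨i, ?_⟩
    rw [h2, hi]
    intro x hx
    exact (f1 a b x hx).1
  · intro u v w huv hwu hwv hmem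
    obtain ⟨a, b, hab⟩ := starG_adj huv
    obtain ⟨h1, h2⟩ := hγR u v a b hab
    rw [h2] at hmem
    have key : w = (a, none) ∨ w = (a, some b) := by
      obtain ⟨a', o⟩ := w
      cases o with
      | none =>
        rw [hp0] at hmem
        left
        rw [f4 a b a' hmem]
      | some b' =>
        rw [hp1] at hmem
        obtain ⟨rfl, rfl⟩ := f6 a' b' a b hmem
        right; rfl
    rw [Sym2.eq_iff] at hab
    rcases hab with ⟨h3, h4⟩ | ⟨h3, h4⟩ <;> rcases key with hk | hk
    · exact hwu (hk.trans h3.symm)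
    · exact hwv (hk.trans h4.symm)
    · exact hwv (hk.trans h4.symm)
    · exact hwu (hk.trans h3.symm)
  · intro u v x y huv hxy hne2 z hz
    obtain ⟨a, b, hab⟩ := starG_adj huv
    obtain ⟨a', b', hab'⟩ := starG_adj hxy
    have h2 := (hγR u v a b hab).2
    have h2' := (hγR x y a' b' hab').2
    rw [h2, h2'] at hz
    have ha := f2 a b a' b' z hz.1 hz.2
    subst ha
    have hbb : b ≠ b' := by
      rintro rfl
      exact hne2 (hab.trans hab'.symm)
    have hz2 := f3 a b b' z hbb hz.1 hz.2
    refine ⟨(a, none), ⟨?_, ?_⟩, ?_⟩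
    · rw [Sym2.eq_iff] at hab
      rcases hab with ⟨h3, h4⟩ | ⟨h3, h4⟩
      · rw [h3]; left; rfl
      · rw [h4]; right; rfl
    · rw [Sym2.eq_iff] at hab'
      rcases hab' with ⟨h3, h4⟩ | ⟨h3, h4⟩
      · rw [h3]; left; rfl
      · rw [h4]; right; rfl
    · rw [hp0, hz2]

end Pool.Agent.Helper242.Stars
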