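import Mathlib
import Pool.Agent.Helper242.Arcs
import Pool.Agent.Helper242.Stars

set_option autoImplicit false

namespace Pool.Agent.Helper242.Lines

open Pool.Agent.Helper242.Arcs Pool.Agent.Helper242.Stars

def IsLine (s : Set E) : Prop :=
  ∃ x y : E, x ≠ y ∧ s = ((line[ℝ, x, y] : AffineSubspace ℝ E) : Set E)

theorem line_eq {s t : Set E} (hs : IsLine s) (ht : IsLine t) {P Q : E} (hPQ : P ≠ Q)
    (hPs : P ∈ s) (hQs : Q ∈ s) (hPt : P ∈ t) (hQt : Q ∈ t) : s = t := by
  obtain ⟨x, y, _, rfl⟩ := hs
  obtain ⟨x', y', _, rfl⟩ := ht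
  have h1 := affineSpan_pair_eq_of_mem_of_mem_of_ne (k := ℝ) hPs hQs hPQ
  have h2 := affineSpan_pair_eq_of_mem_of_mem_of_ne (k := ℝ) hPt hQt hPQ
  rw [← h1, ← h2]

theorem line_param {s : Set E} (hs : IsLine s) {P : E} (hP : P ∈ s) :
    ∃ d : E, ∀ z ∈ s, ∃ t : ℝ, z = P + t • d := by
  obtain ⟨x, y, _, rfl⟩ := hs
  obtain ⟨r, hr⟩ := mem_affineSpan_pair_iff_exists_lineMap_eq.1 hP
  refine ⟨y - x, fun z hz => ?_⟩
  obtain ⟨r', hr'⟩ := mem_affineSpan_pair_iff_exists_lineMap_eq.1 hz
  refine ⟨r' - r, ?_⟩
  rw [← hr, ← hr']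
  simp only [AffineMap.lineMap_apply, vsub_eq_sub, vadd_eq_add]
  module

theorem seg_mem {P d : E} {t t' : ℝ} (h1 : 0 < t * t') (h2 : |t| ≤ |t'|) :
    P + t • d ∈ segment ℝ P (P + t' • d) := by
  have ht' : t' ≠ 0 := by rintro rfl; simp at h1
  have hpos : 0 < t / t' := by
    rcases lt_or_gt_of_ne ht' with h | h
    · have : t < 0 := by nlinarith
      exact div_pos_of_neg_of_neg this h
    · have : 0 < t := by nlinarith
      exact div_pos this h
  have hle : t / t' ≤ 1 := by
    rw [← abs_of_pos hpos, abs_div]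
    exact div_le_one_of_le₀ h2 (abs_nonneg _)
  refine ⟨1 - t / t', t / t', by linarith, hpos.le, by ring, ?_⟩
  have : (t / t') * t' = t := by field_simp
  rw [smul_add, smul_smul, this]
  module

/-- among three points of a line through `P`, all different from `P`, one lies on the segment from
`P` to another one -/
theorem three_points {s : Set E} (hs : IsLine s) {P : E} (hP : P ∈ s) (q : Fin 3 → E)
    (hq : ∀ i, q i ∈ s) (hqP : ∀ i, q i ≠ P) :
    ∃ i j, i ≠ j ∧ q i ∈ segment ℝ P (q j) := by
  obtain ⟨d, hd⟩ := line_param hs hP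
  choose t ht using fun i => hd (q i) (hq i)
  have ht0 : ∀ i, t i ≠ 0 := by
    intro i h0
    apply hqP i
    rw [ht i, h0]; simp
  have key : ∀ i j, i ≠ j → 0 < t i * t j → ∃ i j, i ≠ j ∧ q i ∈ segment ℝ P (q j) := by
    intro i j hij hpos
    rcases le_total |t i| |t j| with h | h
    · exact ⟨i, j, hij, by rw [ht i, ht j]; exact seg_mem hpos h⟩
    · exact ⟨j, i, hij.symm, by rw [ht i, ht j]; exact seg_mem (by rwa [mul_comm]) h⟩
  rcases lt_or_gt_of_ne (ht0 0) with h0 | h0 <;> rcases lt_or_gt_of_ne (ht0 1) with h1 | h1 <;>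
    rcases lt_or_gt_of_ne (ht0 2) with h2 | h2
  · exact key 0 1 (by decide) (mul_pos_of_neg_of_neg h0 h1)
  · exact key 0 1 (by decide) (mul_pos_of_neg_of_neg h0 h1)
  · exact key 0 2 (by decide) (mul_pos_of_neg_of_neg h0 h2)
  · exact key 1 2 (by decide) (mul_pos h1 h2)
  · exact key 1 2 (by decide) (mul_pos_of_neg_of_neg h1 h2)
  · exact key 0 2 (by decide) (mul_pos h0 h2)
  · exact key 0 1 (by decide) (mul_pos h0 h1)
  · exact key 0 1 (by decide) (mul_pos h0 h1)

/-- union bound for almost disjoint families -/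
theorem union_bound {α ι : Type*} [DecidableEq α] [DecidableEq ι] (M : ℕ) (f : ι → Finset α)
    (hf : ∀ i, 2 * M ≤ (f i).card) (hij : ∀ i j, i ≠ j → (f i ∩ f j).card ≤ 1)
    (S : Finset ι) (hS : S.card ≤ M) : S.card * M ≤ (S.biUnion f).card := by
  induction S using Finset.induction_on with
  | empty => simp
  | insert i S hi ih =>
    rw [Finset.card_insert_of_notMem hi] at hS ⊢
    have ih' := ih (by omega)
    rw [Finset.biUnion_insert]
    have h1 : (f i ∩ S.biUnion f).card ≤ S.card := by
      rw [Finset.inter_biUnion]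
      calc (S.biUnion fun x => f i ∩ f x).card ≤ ∑ x ∈ S, (f i ∩ f x).card := Finset.card_biUnion_le
        _ ≤ ∑ x ∈ S, 1 := Finset.sum_le_sum (fun x hx => hij i x (fun h => hi (h ▸ hx)))
        _ = S.card := by simp
    have h2 := Finset.card_union_add_card_inter (f i) (S.biUnion f)
    have h3 := hf i
    rw [add_mul, one_mul]
    omega

theorem lines_lower (A B : Type) [Fintype A] [Fintype B] (hB : 4 * Fintype.card A ≤ Fintype.card B)
    {k : ℕ} (L : Fin k → Set E) (hL : ∀ i, IsLine (L i))
    (p : A × Option B → E) (hp : Function.Injective p)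
    (hcov : ∀ u v, (starG A B).Adj u v → ∃ i, segment ℝ (p u) (p v) ⊆ L i)
    (hnot : ∀ u v w, (starG A B).Adj u v → w ≠ u → w ≠ v → p w ∉ segment ℝ (p u) (p v)) :
    Fintype.card A * Fintype.card A ≤ k := by
  classical
  have hadj : ∀ a b, (starG A B).Adj (a, none) (a, some b) := fun a b => ⟨rfl, by simp⟩
  choose g hg using fun a b => hcov (a, none) (a, some b) (hadj a b)
  set f : A → Finset (Set E) := fun a => Finset.univ.image (fun b => L (g a b)) with hf
  have hmem : ∀ a, ∀ s ∈ f a, IsLine s ∧ p (a, none) ∈ s := by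
    intro a s hs
    rw [hf, Finset.mem_image] at hs
    obtain ⟨b, _, rfl⟩ := hs
    exact ⟨hL _, hg a b (left_mem_segment ℝ _ _)⟩
  have hcard : ∀ a, 2 * Fintype.card A ≤ (f a).card := by
    intro a
    have h1 : (Finset.univ : Finset B).card ≤ 2 * (f a).card := by
      rw [hf]
      apply Finset.card_le_mul_card_image
      intro s hs
      by_contra hcon
      push Not at hcon
      obtain ⟨b1, b2, b3, hb1, hb2, hb3, h12, h13, h23⟩ := Finset.two_lt_card_iff.1 hcon
      have e1 := (Finset.mem_filter.1 hb1).2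
      have e2 := (Finset.mem_filter.1 hb2).2
      have e3 := (Finset.mem_filter.1 hb3).2
      have hline := (hmem a s hs)
      have hq : ∀ b, L (g a b) = s → p (a, some b) ∈ s := by
        intro b hb
        rw [← hb]
        exact hg a b (right_mem_segment ℝ _ _)
      obtain ⟨i, j, hij, hseg⟩ := three_points hline.1 hline.2 (P := p (a, none))
        ![p (a, some b1), p (a, some b2), p (a, some b3)]
        (by intro i; fin_cases i
            · exact hq b1 e1
            · exact hq b2 e2
            · exact hq b3 e3)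
        (by intro i h
            fin_cases i
            · have := hp h; simp at this
            · have := hp h; simp at this
            · have := hp h; simp at this)
      have hviol : ∀ b b', b ≠ b' → p (a, some b) ∈ segment ℝ (p (a, none)) (p (a, some b')) →
          False := by
        intro b b' hbb hmem
        exact hnot (a, none) (a, some b') (a, some b) (hadj a b') (by simp)
          (by simpa using hbb) hmem
      fin_cases i <;> fin_cases j
      · exact hij rfl
      · exact hviol _ _ h12 hseg
      · exact hviol _ _ h13 hseg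
      · exact hviol _ _ h12.symm hseg
      · exact hij rfl
      · exact hviol _ _ h23 hseg
      · exact hviol _ _ h13.symm hseg
      · exact hviol _ _ h23.symm hseg
      · exact hij rfl
    rw [Finset.card_univ] at h1
    omega
  have hinter : ∀ a a', a ≠ a' → (f a ∩ f a').card ≤ 1 := by
    intro a a' haa
    rw [Finset.card_le_one]
    intro s hs t ht
    rw [Finset.mem_inter] at hs ht
    have h1 := hmem a s hs.1
    have h2 := hmem a' s hs.2
    have h3 := hmem a t ht.1
    have h4 := hmem a' t ht.2
    refine line_eq h1.1 h3.1 (P := p (a, none)) (Q := p (a', none)) ?_ h1.2 h2.2 h3.2 h4.2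
    intro h
    exact haa (by simpa using hp h)
  have hU := union_bound (Fintype.card A) f hcard hinter Finset.univ (by simp)
  rw [Finset.card_univ] at hU
  have h5 : (Finset.univ.biUnion f).card ≤ k := by
    calc (Finset.univ.biUnion f).card ≤ (Finset.univ.image L).card := by
          apply Finset.card_le_card
          intro s hs
          rw [Finset.mem_biUnion] at hs
          obtain ⟨a, _, ha⟩ := hs
          rw [hf, Finset.mem_image] at ha
          obtain ⟨b, _, rfl⟩ := ha
          exact Finset.mem_image_of_mem _ (Finset.mem_univ _)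
      _ ≤ (Finset.univ : Finset (Fin k)).card := Finset.card_image_le
      _ = k := by simp
  exact hU.trans h5

end Pool.Agent.Helper242.Lines
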